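import Mathlib

namespace Pool.Agent.R342.Seb

/-- A tournament on the set `N` of teams: a complete oriented graph; `beats x y` is the arc
`x → y`. -/
structure Tour (N : Type) where
  /-- `beats x y` means that `x` beats `y`. -/
  beats : N → N → Prop
  irrefl : ∀ x, ¬ beats x x
  asymm : ∀ x y, beats x y → ¬ beats y x
  total : ∀ x y, x ≠ y → beats x y ∨ beats y x

/-- The leaves of the complete `d`-ary tree of height `h`: paths from the root. -/
def Leaf (d : ℕ) : ℕ → Type
  | 0 => Unit
  | h + 1 => Fin d × Leaf d h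

/-- A choice of a mark in `Fin d` for every inner node of the complete `d`-ary tree of
height `h`: the mark of the root, and the marks of the `d` subtrees. -/
def Marks (d : ℕ) : ℕ → Type
  | 0 => Unit
  | h + 1 => Fin d × (Fin d → Marks d h)

instance instFintypeLeaf (d : ℕ) : (h : ℕ) → Fintype (Leaf d h)
  | 0 => inferInstanceAs (Fintype Unit)
  | h + 1 =>
    letI := instFintypeLeaf d h
    inferInstanceAs (Fintype (Fin d × Leaf d h))

instance instDecidableEqLeaf (d : ℕ) : (h : ℕ) → DecidableEq (Leaf d h)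
  | 0 => inferInstanceAs (DecidableEq Unit)
  | h + 1 =>
    letI := instDecidableEqLeaf d h
    inferInstanceAs (DecidableEq (Fin d × Leaf d h))

instance instFintypeMarks (d : ℕ) : (h : ℕ) → Fintype (Marks d h)
  | 0 => inferInstanceAs (Fintype Unit)
  | h + 1 =>
    letI := instFintypeMarks d h
    inferInstanceAs (Fintype (Fin d × (Fin d → Marks d h)))

/-- The label of an inner node whose children have the labels `A 0, …, A (d - 1)` and whose
mark is `m`: the Condorcet winner of the set of the children's labels if there is one, and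
`A m` otherwise. -/
noncomputable def nodeLabel {N : Type} (T : Tour N) {d : ℕ} (A : Fin d → N) (m : Fin d) : N :=
  open Classical in
  if H : ∃ i, ∀ j, A j ≠ A i → T.beats (A i) (A j) then A H.choose else A m

/-- The label of the root of the complete `d`-ary tree of height `h`, the teams being placed on
the leaves by `σ` and the inner nodes being marked by `m`. -/
noncomputable def rootLabel {N : Type} (T : Tour N) (d : ℕ) :
    (h : ℕ) → (Leaf d h → N) → Marks d h → N
  | 0, σ, _ => σ ()
  | h + 1, σ, m => nodeLabel T (fun i => rootLabel T d h (fun l => σ (i, l)) (m.2 i)) m.1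

/-- The probability `r^d_x(T)` that `x` wins under the rule R`d`SEB on `d ^ h` teams: the teams
are placed on the leaves by a uniformly random bijection and the marks are independent and
uniformly random. -/
noncomputable def winProb (d h : ℕ) (T : Tour (Fin (d ^ h))) (x : Fin (d ^ h)) : ℝ :=
  open Classical in
  ((Finset.univ.filter (fun q : (Leaf d h ≃ Fin (d ^ h)) × Marks d h =>
      rootLabel T d h q.1 q.2 = x)).card : ℝ) /
    (Fintype.card ((Leaf d h ≃ Fin (d ^ h)) × Marks d h) : ℝ)

/-- `T` and `T'` are `S`-adjacent: they agree on every match except possibly matches between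
two members of `S`. -/
def SAdjacent {N : Type} (S : Finset N) (T T' : Tour N) : Prop :=
  ∀ x y, ¬ (x ∈ S ∧ y ∈ S) → (T.beats x y ↔ T'.beats x y)

/-- The rule R`d`SEB is `k`-SNM-`α` (for every `n = d ^ h` with `h ≥ 1`). -/
def IsSNM (d k : ℕ) (α : ℝ) : Prop :=
  ∀ h : ℕ, 1 ≤ h → ∀ (T T' : Tour (Fin (d ^ h))) (S : Finset (Fin (d ^ h))), S.card ≤ k →
    SAdjacent S T T' → ∑ x ∈ S, winProb d h T' x - ∑ x ∈ S, winProb d h T x ≤ α

/-- The manipulability `α_{d,k}`: the least `α` such that R`d`SEB is `k`-SNM-`α`. -/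
noncomputable def manip (d k : ℕ) : ℝ := sInf {α : ℝ | IsSNM d k α}

/-! ### Generalities -/

theorem nodeLabel_condorcet {N : Type} (T : Tour N) {d : ℕ} (A : Fin d → N) (m : Fin d)
    (i : Fin d) (hi : ∀ j, A j ≠ A i → T.beats (A i) (A j)) : nodeLabel T A m = A i := by
  classical
  have H : ∃ i, ∀ j, A j ≠ A i → T.beats (A i) (A j) := ⟨i, hi⟩
  rw [nodeLabel, dif_pos H]
  by_contra hne
  have h1 := H.choose_spec i (fun h => hne h.symm)
  have h2 := hi H.choose hne
  exact T.asymm _ _ h1 h2

theorem nodeLabel_mark {N : Type} (T : Tour N) {d : ℕ} (A : Fin d → N) (m : Fin d)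
    (h : ∀ i, ∃ j, A j ≠ A i ∧ ¬ T.beats (A i) (A j)) : nodeLabel T A m = A m := by
  classical
  rw [nodeLabel, dif_neg]
  rintro ⟨i, hi⟩
  obtain ⟨j, hj1, hj2⟩ := h i
  exact hj2 (hi j hj1)

theorem nodeLabel_mem {N : Type} (T : Tour N) {d : ℕ} (A : Fin d → N) (m : Fin d) :
    ∃ i, nodeLabel T A m = A i := by
  classical
  by_cases H : ∃ i, ∀ j, A j ≠ A i → T.beats (A i) (A j)
  · obtain ⟨i, hi⟩ := H
    exact ⟨i, nodeLabel_condorcet T A m i hi⟩
  · refine ⟨m, ?_⟩
    rw [nodeLabel, dif_neg H]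

/-- A team that beats every other team of the bracket wins the bracket. -/
theorem rootLabel_condorcet {N : Type} (T : Tour N) (d : ℕ) (c : N)
    (hc : ∀ x, x ≠ c → T.beats c x) :
    ∀ (h : ℕ) (σ : Leaf d h → N) (m : Marks d h), c ∈ Set.range σ → rootLabel T d h σ m = c
  | 0, σ, m, hσ => by
    obtain ⟨l, hl⟩ := hσ
    rw [rootLabel]
    rw [← hl]
    rfl
  | h + 1, σ, m, hσ => by
    obtain ⟨⟨i, l⟩, hl⟩ := hσ
    rw [rootLabel]
    have h1 : rootLabel T d h (fun l => σ (i, l)) (m.2 i) = c :=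
      rootLabel_condorcet T d c hc h _ _ ⟨l, hl⟩
    have h2 := nodeLabel_condorcet T
      (fun i => rootLabel T d h (fun l => σ (i, l)) (m.2 i)) m.1 i (by
        intro j hj
        simp only [h1] at hj ⊢
        exact hc _ hj)
    rw [h2, h1]

theorem card_pos_of (d h : ℕ) (hd : 1 ≤ d) :
    0 < Fintype.card ((Leaf d h ≃ Fin (d ^ h)) × Marks d h) := by
  have h1 : ∀ h, Nonempty (Marks d h) := by
    intro h
    induction h with
    | zero => exact ⟨()⟩
    | succ h ih => exact ⟨(⟨0, hd⟩, fun _ => ih.some)⟩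
  have h2 : ∀ h, Fintype.card (Leaf d h) = d ^ h := by
    intro h
    induction h with
    | zero => rfl
    | succ h ih =>
      have : Fintype.card (Leaf d (h + 1)) = Fintype.card (Fin d × Leaf d h) := rfl
      rw [this, Fintype.card_prod, Fintype.card_fin, ih, pow_succ, mul_comm]
  have h3 : Nonempty (Leaf d h ≃ Fin (d ^ h)) := by
    rw [← Fintype.card_eq, h2, Fintype.card_fin]
  have := h1 h
  exact Fintype.card_pos

theorem winProb_nonneg (d h : ℕ) (T : Tour (Fin (d ^ h))) (x : Fin (d ^ h)) :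
    0 ≤ winProb d h T x := by
  unfold winProb
  positivity

open Classical in
theorem sum_winProb (d h : ℕ) (T : Tour (Fin (d ^ h))) (S : Finset (Fin (d ^ h))) :
    ∑ x ∈ S, winProb d h T x =
      ((Finset.univ.filter (fun q : (Leaf d h ≃ Fin (d ^ h)) × Marks d h =>
        rootLabel T d h q.1 q.2 ∈ S)).card : ℝ) /
      (Fintype.card ((Leaf d h ≃ Fin (d ^ h)) × Marks d h) : ℝ) := by
  unfold winProb
  rw [← Finset.sum_div]
  congr 1
  rw [Finset.card_eq_sum_card_fiberwise (f := fun q : (Leaf d h ≃ Fin (d ^ h)) × Marks d h =>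
    rootLabel T d h q.1 q.2) (t := S)]
  · push_cast
    refine Finset.sum_congr rfl ?_
    intro x hx
    congr 2
    ext q
    simp only [Finset.mem_filter, Finset.mem_univ, true_and]
    constructor
    · intro h
      exact ⟨h ▸ hx, h⟩
    · intro h
      exact h.2
  · intro q hq
    simpa using hq

theorem sum_winProb_le_one (d h : ℕ) (T : Tour (Fin (d ^ h))) (S : Finset (Fin (d ^ h))) :
    ∑ x ∈ S, winProb d h T x ≤ 1 := by
  rw [sum_winProb]
  refine div_le_one_of_le₀ ?_ (by positivity)
  exact_mod_cast Finset.card_le_univ _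

theorem sum_winProb_condorcet (d h : ℕ) (hd : 1 ≤ d) (T : Tour (Fin (d ^ h)))
    (S : Finset (Fin (d ^ h))) (c : Fin (d ^ h)) (hcS : c ∈ S)
    (hc : ∀ x, x ≠ c → T.beats c x) :
    ∑ x ∈ S, winProb d h T x = 1 := by
  rw [sum_winProb]
  have h1 : (Finset.univ.filter (fun q : (Leaf d h ≃ Fin (d ^ h)) × Marks d h =>
        rootLabel T d h q.1 q.2 ∈ S)) = Finset.univ := by
    ext q
    simp only [Finset.mem_filter, Finset.mem_univ, true_and, iff_true]
    rw [rootLabel_condorcet T d c hc h q.1 q.2 (q.1.surjective c)]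
    exact hcS
  have h2 := card_pos_of d h hd
  rw [h1, Finset.card_univ, div_self]
  exact_mod_cast h2.ne'

/-- `α_{d,k}` is indeed the least `α` for which R`d`SEB is `k`-SNM-`α`. -/
theorem isLeast_manip (d k : ℕ) : IsLeast {α : ℝ | IsSNM d k α} (manip d k) := by
  have hne : (1 : ℝ) ∈ {α : ℝ | IsSNM d k α} := by
    intro h _ T T' S _ _
    have h1 := sum_winProb_le_one d h T' S
    have h2 : 0 ≤ ∑ x ∈ S, winProb d h T x := Finset.sum_nonneg (fun x _ => winProb_nonneg d h T x)
    linarith
  have hlow : ∀ h : ℕ, 1 ≤ h → ∀ (T T' : Tour (Fin (d ^ h))) (S : Finset (Fin (d ^ h))),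
      S.card ≤ k → SAdjacent S T T' → ∀ α ∈ {α : ℝ | IsSNM d k α},
      ∑ x ∈ S, winProb d h T' x - ∑ x ∈ S, winProb d h T x ≤ α := by
    intro h hh T T' S hS hST α hα
    exact hα h hh T T' S hS hST
  have hbdd : BddBelow {α : ℝ | IsSNM d k α} := by
    refine ⟨0, ?_⟩
    intro α hα
    let T : Tour (Fin (d ^ 1)) := ⟨fun x y => x < y, fun x => lt_irrefl x,
      fun x y h h' => lt_asymm h h', fun x y h => lt_or_gt_of_ne h⟩
    have := hα 1 le_rfl T T ∅ (by simp) (fun x y _ => Iff.rfl)
    simpa using this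
  constructor
  · intro h hh T T' S hS hST
    exact le_csInf ⟨1, hne⟩ (fun α hα => hlow h hh T T' S hS hST α hα)
  · intro α hα
    exact csInf_le hbdd hα

theorem le_manip (d k h : ℕ) (hh : 1 ≤ h) (T T' : Tour (Fin (d ^ h))) (S : Finset (Fin (d ^ h)))
    (hS : S.card ≤ k) (hST : SAdjacent S T T') :
    ∑ x ∈ S, winProb d h T' x - ∑ x ∈ S, winProb d h T x ≤ manip d k :=
  (isLeast_manip d k).1 h hh T T' S hS hST

end Pool.Agent.R342.Seb
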