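import Mathlib

namespace Pool.Agent.R342.Seb

/-- The number of ways to place `m` labelled items in `d` rooms with `d` slots each, at most one
item per slot, item `t` being in room `γ t`. -/
def slotCount (d : ℕ) : (m : ℕ) → (Fin m → Fin d) → ℕ
  | 0, _ => 1
  | m + 1, γ => (d - (Finset.univ.filter (fun i : Fin m => γ i.succ = γ 0)).card) *
      slotCount d m (fun i => γ i.succ)

theorem exists_perm_embedding {L : Type} [Fintype L] [DecidableEq L] {m : ℕ}
    (p q : Fin m ↪ L) : ∃ τ : Equiv.Perm L, ∀ i, τ (p i) = q i := by
  classical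
  let e : {x // x ∈ Set.range p} ≃ {x // x ∈ Set.range q} :=
    (Equiv.ofInjective p p.injective).symm.trans (Equiv.ofInjective q q.injective)
  refine ⟨e.extendSubtype, ?_⟩
  intro i
  have h1 : p i ∈ Set.range p := ⟨i, rfl⟩
  have h2 := Equiv.extendSubtype_apply_of_mem e (p i) h1
  rw [h2]
  have h3 : (Equiv.ofInjective p p.injective).symm ⟨p i, h1⟩ = i :=
    Equiv.ofInjective_symm_apply p.injective i
  simp only [e, Equiv.trans_apply, h3, Equiv.ofInjective_apply]

/-- Averaging over random bijections, a function of the positions of `m` fixed items can be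
averaged over random injections. -/
theorem sum_equiv_eq {L N : Type} [Fintype L] [DecidableEq L] [Fintype N] [DecidableEq N]
    {m : ℕ} (sp : Fin m ↪ N) (F : (Fin m ↪ L) → ℕ) :
    Fintype.card (Fin m ↪ L) * ∑ σ : L ≃ N, F (sp.trans σ.symm.toEmbedding) =
      Fintype.card (L ≃ N) * ∑ p : Fin m ↪ L, F p := by
  classical
  let K : (Fin m ↪ L) → ℕ := fun p =>
    (Finset.univ.filter (fun σ : L ≃ N => sp.trans σ.symm.toEmbedding = p)).card
  have hK : ∀ p q, K p = K q := by
    intro p q
    obtain ⟨τ, hτ⟩ := exists_perm_embedding p q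
    refine Finset.card_bij (fun σ _ => τ.symm.trans σ) ?_ ?_ ?_
    · intro σ hσ
      simp only [Finset.mem_filter, Finset.mem_univ, true_and] at hσ ⊢
      ext i
      have := congrArg (fun f : Fin m ↪ L => f i) hσ
      simp only [Function.Embedding.trans_apply, Equiv.coe_toEmbedding] at this
      simp only [Function.Embedding.trans_apply, Equiv.coe_toEmbedding, Equiv.symm_trans_apply,
        Equiv.symm_symm]
      rw [this, hτ]
    · intro σ _ σ' _ h
      ext x
      have := congrArg (fun f : L ≃ N => f (τ x)) h
      simpa using this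
    · intro σ hσ
      simp only [Finset.mem_filter, Finset.mem_univ, true_and] at hσ
      refine ⟨τ.trans σ, ?_, ?_⟩
      · simp only [Finset.mem_filter, Finset.mem_univ, true_and]
        ext i
        have := congrArg (fun f : Fin m ↪ L => f i) hσ
        simp only [Function.Embedding.trans_apply, Equiv.coe_toEmbedding] at this
        simp only [Function.Embedding.trans_apply, Equiv.coe_toEmbedding,
          Equiv.symm_trans_apply]
        rw [this, ← hτ, Equiv.symm_apply_apply]
      · ext x
        simp
  have h1 : ∀ G : (Fin m ↪ L) → ℕ,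
      ∑ σ : L ≃ N, G (sp.trans σ.symm.toEmbedding) = ∑ p, K p * G p := by
    intro G
    rw [← Finset.sum_fiberwise (s := (Finset.univ : Finset (L ≃ N)))
      (g := fun σ : L ≃ N => sp.trans σ.symm.toEmbedding)]
    refine Finset.sum_congr rfl ?_
    intro p _
    rw [Finset.sum_congr rfl (g := fun _ => G p)]
    · rw [Finset.sum_const, smul_eq_mul]
    · intro σ hσ
      simp only [Finset.mem_filter, Finset.mem_univ, true_and] at hσ
      rw [hσ]
  have h2 : Fintype.card (L ≃ N) = ∑ p, K p := by
    have := h1 (fun _ => 1)
    simpa using this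
  rw [h1 F, h2]
  by_cases hne : Nonempty (Fin m ↪ L)
  · obtain ⟨p0⟩ := hne
    have h3 : ∀ p, K p = K p0 := fun p => hK p p0
    simp only [h3, Finset.sum_const, Finset.card_univ, smul_eq_mul, ← Finset.mul_sum]
    ring
  · have : IsEmpty (Fin m ↪ L) := not_nonempty_iff.mp hne
    simp

/-- Valid slots. -/
def validSlots (d m : ℕ) (γ : Fin m → Fin d) (s : Fin m → Fin d) : Prop :=
  ∀ i j, i ≠ j → γ i = γ j → s i ≠ s j

instance (d m : ℕ) (γ : Fin m → Fin d) : DecidablePred (validSlots d m γ) := fun s => by
  unfold validSlots
  infer_instance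

theorem validSlots_cons (d m : ℕ) (γ : Fin (m + 1) → Fin d) (a : Fin d) (s : Fin m → Fin d) :
    validSlots d (m + 1) γ (Fin.cons a s) ↔
      validSlots d m (fun i => γ i.succ) s ∧ ∀ i : Fin m, γ i.succ = γ 0 → s i ≠ a := by
  constructor
  · intro h
    constructor
    · intro i j hij hγ
      have := h i.succ j.succ (fun e => hij (Fin.succ_injective _ e)) hγ
      simpa using this
    · intro i hi
      have := h i.succ 0 (Fin.succ_ne_zero i) hi
      simpa using this
  · rintro ⟨h1, h2⟩ i j hij hγ
    refine Fin.cases ?_ (fun i' => ?_) i (motive := fun i => i ≠ j → γ i = γ j →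
      (Fin.cons a s : Fin (m + 1) → Fin d) i ≠ (Fin.cons a s : Fin (m + 1) → Fin d) j) hij hγ
    · intro hj hg
      obtain ⟨j', rfl⟩ := Fin.exists_succ_eq.mpr (Ne.symm hj)
      simp only [Fin.cons_zero, Fin.cons_succ]
      exact (h2 j' hg.symm).symm
    · intro hj hg
      refine Fin.cases ?_ (fun j' => ?_) j (motive := fun j => i'.succ ≠ j → γ i'.succ = γ j →
        (Fin.cons a s : Fin (m + 1) → Fin d) i'.succ ≠
          (Fin.cons a s : Fin (m + 1) → Fin d) j) hj hg
      · intro _ hg'
        simp only [Fin.cons_zero, Fin.cons_succ]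
        exact h2 i' hg'
      · intro hj' hg'
        simp only [Fin.cons_succ]
        exact h1 i' j' (fun e => hj' (by rw [e])) hg'

theorem card_validSlots (d : ℕ) : ∀ (m : ℕ) (γ : Fin m → Fin d),
    (Finset.univ.filter (validSlots d m γ)).card = slotCount d m γ
  | 0, γ => by
    rw [slotCount, Finset.filter_true_of_mem]
    · simp
    · intro s _ i
      exact Fin.elim0 i
  | m + 1, γ => by
    classical
    rw [slotCount, ← card_validSlots d m (fun i => γ i.succ)]
    have h1 : (Finset.univ.filter (validSlots d (m + 1) γ)).card =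
        ∑ s : Fin (m + 1) → Fin d, if validSlots d (m + 1) γ s then 1 else 0 := by
      rw [Finset.card_filter]
    rw [h1, ← (Fin.consEquiv (fun _ : Fin (m + 1) => Fin d)).sum_comp, Fintype.sum_prod_type_right]
    have h2 : ∀ s : Fin m → Fin d,
        (∑ a : Fin d, if validSlots d (m + 1) γ
          ((Fin.consEquiv (fun _ : Fin (m + 1) => Fin d)) (a, s)) then 1 else 0) =
        if validSlots d m (fun i => γ i.succ) s then
          (d - (Finset.univ.filter (fun i : Fin m => γ i.succ = γ 0)).card) else 0 := by
      intro s
      by_cases hs : validSlots d m (fun i => γ i.succ) s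
      · rw [if_pos hs]
        have h3 : ∀ a : Fin d, validSlots d (m + 1) γ
            ((Fin.consEquiv (fun _ : Fin (m + 1) => Fin d)) (a, s)) ↔
            a ∉ (Finset.univ.filter (fun i : Fin m => γ i.succ = γ 0)).image s := by
          intro a
          have : ((Fin.consEquiv (fun _ : Fin (m + 1) => Fin d)) (a, s)) = Fin.cons a s := rfl
          rw [this, validSlots_cons]
          simp only [Finset.mem_image, Finset.mem_filter, Finset.mem_univ, true_and, not_exists,
            not_and]
          constructor
          · intro h i hi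
            exact h.2 i hi
          · intro h
            exact ⟨hs, h⟩
        simp only [h3]
        rw [← Finset.card_filter]
        have h4 : (Finset.univ.filter (fun a : Fin d =>
            a ∉ (Finset.univ.filter (fun i : Fin m => γ i.succ = γ 0)).image s)) =
            ((Finset.univ.filter (fun i : Fin m => γ i.succ = γ 0)).image s)ᶜ := by
          ext a
          simp
        rw [h4, Finset.card_compl, Fintype.card_fin, Finset.card_image_of_injOn]
        intro i hi j hj hij
        simp only [Finset.coe_filter, Finset.mem_univ, true_and, Set.mem_ofPred_eq] at hi hj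
        by_contra hne
        exact hs i j hne (by simp only; rw [hi, hj]) hij
      · rw [if_neg hs]
        refine Finset.sum_eq_zero ?_
        intro a _
        rw [if_neg]
        intro h
        have : ((Fin.consEquiv (fun _ : Fin (m + 1) => Fin d)) (a, s)) = Fin.cons a s := rfl
        rw [this, validSlots_cons] at h
        exact hs h.1
    simp only [h2]
    rw [← Finset.sum_filter, Finset.sum_const, smul_eq_mul, mul_comm]

theorem sum_embedding_eq (d m : ℕ) (V : (Fin m → Fin d) → ℕ) :
    ∑ p : Fin m ↪ (Fin d × (Fin d × Unit)), V (fun t => (p t).1) =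
      ∑ γ : Fin m → Fin d, slotCount d m γ * V γ := by
  classical
  rw [← Finset.sum_fiberwise (s := (Finset.univ : Finset (Fin m ↪ (Fin d × (Fin d × Unit)))))
      (g := fun p : Fin m ↪ (Fin d × (Fin d × Unit)) => fun t => (p t).1)]
  refine Finset.sum_congr rfl ?_
  intro γ _
  have h1 : ∀ p ∈ Finset.univ.filter
      (fun p : Fin m ↪ (Fin d × (Fin d × Unit)) => (fun t => (p t).1) = γ),
      V (fun t => (p t).1) = V γ := by
    intro p hp
    simp only [Finset.mem_filter, Finset.mem_univ, true_and] at hp
    rw [hp]
  rw [Finset.sum_congr rfl h1, Finset.sum_const, smul_eq_mul, ← card_validSlots]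
  congr 1
  refine Finset.card_bij (fun p _ => fun t => (p t).2.1) ?_ ?_ ?_
  · intro p hp
    simp only [Finset.mem_filter, Finset.mem_univ, true_and] at hp ⊢
    intro i j hij hγ hs
    apply hij
    apply p.injective
    have h3 := congrFun hp i
    have h4 := congrFun hp j
    refine Prod.ext ?_ (Prod.ext hs rfl)
    rw [h3, h4, hγ]
  · intro p hp q hq h
    simp only [Finset.mem_filter, Finset.mem_univ, true_and] at hp hq
    ext t
    · exact congrArg Fin.val (congrFun (hp.trans hq.symm) t)
    · exact congrArg Fin.val (congrFun h t)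
  · intro s hs
    simp only [Finset.mem_filter, Finset.mem_univ, true_and] at hs
    refine ⟨⟨fun t => (γ t, (s t, ())), ?_⟩, ?_, ?_⟩
    · intro i j hij
      simp only [Prod.mk.injEq] at hij
      by_contra hne
      exact hs i j hne hij.1 hij.2.1
    · simp
    · simp

end Pool.Agent.R342.Seb
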