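import Mathlib
import Pool.Agent.R342.Seb.Basic
import Pool.Agent.R342.Seb.Count

namespace Pool.Agent.R342.Seb

/-- Teams are ordered by their index, lower beats higher, except that team `0` loses to the
teams with index in `R`. -/
def revTour (n : ℕ) (R : ℕ → Prop) (hR : ¬ R 0) : Tour (Fin n) where
  beats x y := (x.val < y.val ∧ ¬ (x.val = 0 ∧ R y.val)) ∨ (y.val = 0 ∧ R x.val)
  irrefl x h := by
    rcases h with h | h
    · exact lt_irrefl _ h.1
    · rw [h.1] at h
      exact hR h.2
  asymm x y h h' := by
    rcases h with h | h <;> rcases h' with h' | h'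
    · exact lt_asymm h.1 h'.1
    · exact h.2 ⟨h'.1, h'.2⟩
    · exact h'.2 ⟨h.1, h.2⟩
    · rw [h'.1] at h
      exact hR h.2
  total x y h := by
    have hv : x.val ≠ y.val := fun e => h (Fin.ext e)
    by_cases h1 : x.val < y.val
    · by_cases h2 : x.val = 0 ∧ R y.val
      · exact Or.inr (Or.inr h2)
      · exact Or.inl (Or.inl ⟨h1, h2⟩)
    · have h3 : y.val < x.val := by omega
      by_cases h2 : y.val = 0 ∧ R x.val
      · exact Or.inl (Or.inr h2)
      · exact Or.inr (Or.inl ⟨h3, h2⟩)

theorem sadj_rev (n : ℕ) (R R' : ℕ → Prop) (hR : ¬ R 0) (hR' : ¬ R' 0) (S : Finset (Fin n))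
    (h0 : ∀ x : Fin n, x.val = 0 → x ∈ S) (h1 : ∀ x : Fin n, R x.val → x ∈ S)
    (h1' : ∀ x : Fin n, R' x.val → x ∈ S) :
    SAdjacent S (revTour n R hR) (revTour n R' hR') := by
  intro x y hxy
  have a1 : ¬ (x.val = 0 ∧ R y.val) := fun h => hxy ⟨h0 x h.1, h1 y h.2⟩
  have a2 : ¬ (y.val = 0 ∧ R x.val) := fun h => hxy ⟨h1 x h.2, h0 y h.1⟩
  have a3 : ¬ (x.val = 0 ∧ R' y.val) := fun h => hxy ⟨h0 x h.1, h1' y h.2⟩
  have a4 : ¬ (y.val = 0 ∧ R' x.val) := fun h => hxy ⟨h1' x h.2, h0 y h.1⟩
  simp only [revTour, a1, a2, a3, a4, not_false_eq_true, and_true, or_false]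

theorem sum_marks_one (d : ℕ) (f : Fin d → ℕ) : ∑ m : Marks d 1, f m.1 = ∑ r : Fin d, f r := by
  have h1 : ∑ m : Marks d 1, f m.1 = ∑ m : Fin d × (Fin d → Unit), f m.1 := rfl
  rw [h1, Fintype.sum_prod_type]
  refine Finset.sum_congr rfl ?_
  intro r _
  simp

theorem card_marks_one (d : ℕ) : Fintype.card (Marks d 1) = d := by
  have := sum_marks_one d (fun _ => 1)
  simpa using this

/-! ### One round, for `7 ≤ d` -/

theorem rootLabel_one {N : Type} (T : Tour N) (d : ℕ) (σ : Leaf d 1 → N) (m : Marks d 1) :
    rootLabel T d 1 σ m = nodeLabel T (fun i => σ (i, ())) m.1 := rfl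

theorem one_round (d : ℕ) (hd : 3 ≤ d) :
    1 - 3 / (d : ℝ) ≤ manip d 3 := by
  classical
  have hd1 : d ^ 1 = d := pow_one d
  have hlt : ∀ k : ℕ, k < 3 → k < d ^ 1 := fun k hk => by rw [hd1]; omega
  let sp : Fin 3 → Fin (d ^ 1) := fun t => ⟨t.val, hlt _ t.isLt⟩
  have hsp : Function.Injective sp := by
    intro a b h
    have := congrArg Fin.val h
    exact Fin.ext this
  let S : Finset (Fin (d ^ 1)) := Finset.univ.image sp
  have hScard : S.card = 3 := by
    rw [Finset.card_image_of_injective _ hsp]
    simp
  have hSmem : ∀ x : Fin (d ^ 1), x ∈ S ↔ x.val < 3 := by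
    intro x
    simp only [S, Finset.mem_image, Finset.mem_univ, true_and]
    constructor
    · rintro ⟨t, rfl⟩
      exact t.isLt
    · intro h
      exact ⟨⟨x.val, h⟩, rfl⟩
  let R : ℕ → Prop := fun v => v = 2
  let T : Tour (Fin (d ^ 1)) := revTour (d ^ 1) R (by simp [R])
  let T' : Tour (Fin (d ^ 1)) := revTour (d ^ 1) (fun _ => False) (by simp)
  have hadj : SAdjacent S T T' := by
    refine sadj_rev _ _ _ _ _ _ ?_ ?_ ?_
    · intro x hx
      rw [hSmem, hx]
      norm_num
    · intro x hx
      rw [hSmem]
      simp only [R] at hx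
      omega
    · intro x hx
      exact hx.elim
  have hT' : ∑ x ∈ S, winProb d 1 T' x = 1 := by
    refine sum_winProb_condorcet d 1 (by omega) T' S (sp 0) ?_ ?_
    · rw [hSmem]
      simp [sp]
    · intro x hx
      left
      refine ⟨?_, by simp⟩
      have : x.val ≠ 0 := by
        intro h
        apply hx
        ext
        simp [sp, h]
      simp only [sp]
      show 0 < x.val
      omega
  have hT : ∑ x ∈ S, winProb d 1 T x = 3 / (d : ℝ) := by
    rw [sum_winProb]
    have hcount : (Finset.univ.filter (fun q : (Leaf d 1 ≃ Fin (d ^ 1)) × Marks d 1 =>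
        rootLabel T d 1 q.1 q.2 ∈ S)).card = Fintype.card (Leaf d 1 ≃ Fin (d ^ 1)) * 3 := by
      rw [Finset.card_filter, Fintype.sum_prod_type]
      have : ∀ σ : Leaf d 1 ≃ Fin (d ^ 1),
          (∑ m : Marks d 1, if rootLabel T d 1 σ m ∈ S then 1 else 0) = 3 := by
        intro σ
        have hlab : ∀ m : Marks d 1, rootLabel T d 1 σ m = σ (m.1, ()) := by
          intro m
          rw [rootLabel_one]
          refine nodeLabel_mark T (fun i => σ (i, ())) m.1 ?_
          intro i
          have hex : ∀ t : Fin (d ^ 1), ∃ j : Fin d, σ (j, ()) = t := by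
            intro t
            exact ⟨(σ.symm t).1, σ.apply_symm_apply t⟩
          have key : ∀ t : Fin (d ^ 1), t ≠ σ (i, ()) → ¬ T.beats (σ (i, ())) t →
              ∃ j, σ (j, ()) ≠ σ (i, ()) ∧ ¬ T.beats (σ (i, ())) (σ (j, ())) := by
            intro t ht1 ht2
            obtain ⟨j, hj⟩ := hex t
            exact ⟨j, by rw [hj]; exact ht1, by rw [hj]; exact ht2⟩
          by_cases h0 : (σ (i, ())).val = 0
          · refine key (sp 2) ?_ ?_
            · intro h
              have := congrArg Fin.val h
              rw [h0] at this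
              simp [sp] at this
            · rintro (h | h)
              · exact h.2 ⟨h0, rfl⟩
              · have := h.1
                simp [sp] at this
          · by_cases h2 : (σ (i, ())).val = 2
            · refine key (sp 1) ?_ ?_
              · intro h
                have := congrArg Fin.val h
                rw [h2] at this
                simp [sp] at this
              · rintro (h | h)
                · have := h.1
                  rw [h2] at this
                  simp [sp] at this
                · have := h.1
                  simp [sp] at this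
            · refine key (sp 0) ?_ ?_
              · intro h
                have := congrArg Fin.val h
                simp only [sp] at this
                exact h0 this.symm
              · rintro (h | h)
                · have := h.1
                  simp [sp] at this
                · exact h2 h.2
        simp only [hlab]
        have h5 := sum_marks_one d (fun r => if σ (r, ()) ∈ S then 1 else 0)
        refine h5.trans ?_
        rw [← Finset.card_filter, ← hScard]
        refine Finset.card_bij (fun r _ => σ (r, ())) ?_ ?_ ?_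
        · intro r hr
          simpa using hr
        · intro r _ r' _ h
          have := σ.injective h
          exact congrArg Prod.fst this
        · intro t ht
          have h6 : σ ((σ.symm t).1, ()) = t := σ.apply_symm_apply t
          refine ⟨(σ.symm t).1, ?_, h6⟩
          simp only [Finset.mem_filter, Finset.mem_univ, true_and]
          rw [h6]
          exact ht
      rw [Finset.sum_congr rfl (fun σ _ => this σ), Finset.sum_const, Finset.card_univ,
        smul_eq_mul]
    have hpos := card_pos_of d 1 (by omega)
    rw [Fintype.card_prod] at hpos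
    have hpos1 : 0 < Fintype.card (Leaf d 1 ≃ Fin (d ^ 1)) := Nat.pos_of_mul_pos_right hpos
    rw [hcount, Fintype.card_prod, card_marks_one]
    push_cast
    rw [mul_div_mul_left]
    exact_mod_cast hpos1.ne'
  have := le_manip d 3 1 le_rfl T T' S hScard.le hadj
  rw [hT', hT] at this
  exact this

end Pool.Agent.R342.Seb
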