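import Mathlib
import Pool.Agent.R342.Seb.Main

namespace Pool.Agent.R342.Seb

/-- Teams `3` and `4` are the two teams that beat team `0`. -/
def RB (v : ℕ) : Prop := v = 3 ∨ v = 4

instance : DecidablePred RB := fun v => inferInstanceAs (Decidable (v = 3 ∨ v = 4))

theorem not_RB_zero : ¬ RB 0 := by
  unfold RB
  omega

section Node

variable {n d : ℕ} (A : Fin d → Fin n) (m : Fin d)

theorem node_noB (hA : ∃ i, (A i).val = 0) (hB : ¬ ∃ i, RB (A i).val) :
    (nodeLabel (revTour n RB not_RB_zero) A m).val = 0 := by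
  obtain ⟨i, hi⟩ := hA
  rw [nodeLabel_condorcet _ A m i]
  · exact hi
  · intro j hj
    left
    have h1 : (A j).val ≠ 0 := by
      intro h
      apply hj
      ext
      rw [h, hi]
    refine ⟨by omega, ?_⟩
    rintro ⟨_, h⟩
    exact hB ⟨j, h⟩

theorem node_B_noX (hB : ∃ i, RB (A i).val) (hX : ¬ ∃ i, ((A i).val = 1 ∨ (A i).val = 2)) :
    RB (nodeLabel (revTour n RB not_RB_zero) A m).val := by
  by_cases h3 : ∃ i, (A i).val = 3
  · obtain ⟨i, hi⟩ := h3
    rw [nodeLabel_condorcet _ A m i]
    · left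
      exact hi
    · intro j hj
      have h1 : (A j).val ≠ 3 := by
        intro h
        apply hj
        ext
        rw [h, hi]
      have h2 : (A j).val ≠ 1 := fun h => hX ⟨j, Or.inl h⟩
      have h4 : (A j).val ≠ 2 := fun h => hX ⟨j, Or.inr h⟩
      by_cases h5 : (A j).val = 0
      · right
        exact ⟨h5, Or.inl hi⟩
      · left
        refine ⟨by omega, ?_⟩
        rintro ⟨h, _⟩
        omega
  · obtain ⟨i, hi | hi⟩ := hB
    · exact absurd ⟨i, hi⟩ h3
    rw [nodeLabel_condorcet _ A m i]
    · right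
      exact hi
    · intro j hj
      have h1 : (A j).val ≠ 4 := by
        intro h
        apply hj
        ext
        rw [h, hi]
      have h2 : (A j).val ≠ 1 := fun h => hX ⟨j, Or.inl h⟩
      have h4 : (A j).val ≠ 2 := fun h => hX ⟨j, Or.inr h⟩
      have h6 : (A j).val ≠ 3 := fun h => h3 ⟨j, h⟩
      by_cases h5 : (A j).val = 0
      · right
        exact ⟨h5, Or.inr hi⟩
      · left
        refine ⟨by omega, ?_⟩
        rintro ⟨h, _⟩
        omega

theorem node_noA_X (hA : ¬ ∃ i, (A i).val = 0) (hX : ∃ i, ((A i).val = 1 ∨ (A i).val = 2)) :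
    (nodeLabel (revTour n RB not_RB_zero) A m).val = 1 ∨
      (nodeLabel (revTour n RB not_RB_zero) A m).val = 2 := by
  by_cases h3 : ∃ i, (A i).val = 1
  · obtain ⟨i, hi⟩ := h3
    rw [nodeLabel_condorcet _ A m i]
    · left
      exact hi
    · intro j hj
      have h1 : (A j).val ≠ 1 := by
        intro h
        apply hj
        ext
        rw [h, hi]
      have h2 : (A j).val ≠ 0 := fun h => hA ⟨j, h⟩
      left
      refine ⟨by omega, ?_⟩
      rintro ⟨h, _⟩
      omega
  · obtain ⟨i, hi | hi⟩ := hX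
    · exact absurd ⟨i, hi⟩ h3
    rw [nodeLabel_condorcet _ A m i]
    · right
      exact hi
    · intro j hj
      have h1 : (A j).val ≠ 2 := by
        intro h
        apply hj
        ext
        rw [h, hi]
      have h2 : (A j).val ≠ 0 := fun h => hA ⟨j, h⟩
      have h6 : (A j).val ≠ 1 := fun h => h3 ⟨j, h⟩
      left
      refine ⟨by omega, ?_⟩
      rintro ⟨h, _⟩
      omega

theorem node_ABX (hA : ∃ i, (A i).val = 0) (hB : ∃ i, RB (A i).val)
    (hX : ∃ i, ((A i).val = 1 ∨ (A i).val = 2)) :
    nodeLabel (revTour n RB not_RB_zero) A m = A m := by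
  refine nodeLabel_mark _ A m ?_
  intro i
  by_cases h0 : (A i).val = 0
  · obtain ⟨j, hj⟩ := hB
    refine ⟨j, ?_, ?_⟩
    · intro h
      rw [h, h0] at hj
      exact not_RB_zero hj
    · rintro (h | h)
      · exact h.2 ⟨h0, hj⟩
      · have := h.2
        rw [h0] at this
        exact not_RB_zero this
  · by_cases hb : RB (A i).val
    · obtain ⟨j, hj⟩ := hX
      have h34 : (A i).val = 3 ∨ (A i).val = 4 := hb
      refine ⟨j, ?_, ?_⟩
      · intro h
        rw [h] at hj
        omega
      · rintro (h | h)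
        · have := h.1
          omega
        · have := h.1
          omega
    · obtain ⟨j, hj⟩ := hA
      refine ⟨j, ?_, ?_⟩
      · intro h
        rw [h] at hj
        exact h0 hj
      · rintro (h | h)
        · have := h.1
          omega
        · exact hb h.2

end Node

/-- The number of rooms other than the one of team `0` whose best special team is `3` or `4`. -/
def nB {d : ℕ} (γ : Fin 5 → Fin d) : ℕ :=
  (Finset.univ.filter (fun i : Fin d => i ≠ γ 0 ∧ (γ 3 = i ∨ γ 4 = i) ∧
    ¬ (γ 1 = i ∨ γ 2 = i))).card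

/-- The number of root marks for which a member of `{0, 3, 4}` wins, if the label of the room of
team `0` is `v`. -/
def Rval {d : ℕ} (γ : Fin 5 → Fin d) (v : ℕ) : ℕ :=
  if v = 0 then (if (γ 1 = γ 0 ∧ γ 2 = γ 0) ∨ nB γ = 0 then d else 1 + nB γ)
  else if v = 3 ∨ v = 4 then (if γ 1 = γ 0 ∧ γ 2 = γ 0 then d else 0)
  else if v = 1 ∨ v = 2 then 0
  else (if (γ 1 = γ 0 ∧ γ 2 = γ 0) ∧ nB γ ≠ 0 then d else 0)

/-- The number of pairs of (root mark, mark of the room of team `0`) for which a member of
`{0, 3, 4}` wins. -/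
def Vval {d : ℕ} (γ : Fin 5 → Fin d) : ℕ :=
  if γ 3 ≠ γ 0 ∧ γ 4 ≠ γ 0 then d * Rval γ 0
  else if γ 1 ≠ γ 0 ∧ γ 2 ≠ γ 0 then d * Rval γ 3
  else (∑ t : Fin 5, if γ t = γ 0 then Rval γ t.val else 0) +
    (d - (Finset.univ.filter (fun t : Fin 5 => γ t = γ 0)).card) * Rval γ 5

/-- The root count. `lab i` is the label of the room `i`. -/
theorem root_count {n d : ℕ} (γ : Fin 5 → Fin d) (lab : Fin d → Fin n)
    (hX : ∀ i, i ≠ γ 0 → (γ 1 = i ∨ γ 2 = i) → ((lab i).val = 1 ∨ (lab i).val = 2))
    (hB : ∀ i, i ≠ γ 0 → (γ 3 = i ∨ γ 4 = i) → ¬ (γ 1 = i ∨ γ 2 = i) → RB (lab i).val)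
    (hD : ∀ i, i ≠ γ 0 → ¬ (γ 3 = i ∨ γ 4 = i) → ¬ (γ 1 = i ∨ γ 2 = i) → 5 ≤ (lab i).val) :
    (∑ r : Fin d, if ((nodeLabel (revTour n RB not_RB_zero) lab r).val = 0 ∨
      RB (nodeLabel (revTour n RB not_RB_zero) lab r).val) then 1 else 0) =
      Rval γ (lab (γ 0)).val := by
  classical
  -- abbreviations
  have hRB : ∀ v : ℕ, RB v ↔ (v = 3 ∨ v = 4) := fun v => Iff.rfl
  have hlab : ∀ i, i ≠ γ 0 → (lab i).val ≠ 0 := by
    intro i hi
    by_cases h1 : γ 1 = i ∨ γ 2 = i
    · have := hX i hi h1
      omega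
    · by_cases h2 : γ 3 = i ∨ γ 4 = i
      · have := hB i hi h2 h1
        rw [hRB] at this
        omega
      · have := hD i hi h2 h1
        omega
  have hlabX : ∀ i, i ≠ γ 0 → ((lab i).val = 1 ∨ (lab i).val = 2) → (γ 1 = i ∨ γ 2 = i) := by
    intro i hi hv
    by_contra h1
    by_cases h2 : γ 3 = i ∨ γ 4 = i
    · have := hB i hi h2 h1
      rw [hRB] at this
      omega
    · have := hD i hi h2 h1
      omega
  have hlabB : ∀ i, i ≠ γ 0 → RB (lab i).val → (γ 3 = i ∨ γ 4 = i) ∧ ¬ (γ 1 = i ∨ γ 2 = i) := by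
    intro i hi hv
    rw [hRB] at hv
    have h1 : ¬ (γ 1 = i ∨ γ 2 = i) := by
      intro h1
      have := hX i hi h1
      omega
    refine ⟨?_, h1⟩
    by_contra h2
    have := hD i hi h2 h1
    omega
  -- existence of X-labels among the other rooms
  have hXex : ¬ (γ 1 = γ 0 ∧ γ 2 = γ 0) → ∃ i, i ≠ γ 0 ∧ ((lab i).val = 1 ∨ (lab i).val = 2) := by
    intro h
    by_cases h1 : γ 1 = γ 0
    · have h2 : γ 2 ≠ γ 0 := fun h2 => h ⟨h1, h2⟩
      exact ⟨γ 2, h2, hX _ h2 (Or.inr rfl)⟩
    · exact ⟨γ 1, h1, hX _ h1 (Or.inl rfl)⟩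
  have hXno : (γ 1 = γ 0 ∧ γ 2 = γ 0) → ∀ i, i ≠ γ 0 → ¬ ((lab i).val = 1 ∨ (lab i).val = 2) := by
    rintro ⟨h1, h2⟩ i hi hv
    rcases hlabX i hi hv with h | h
    · exact hi (by rw [← h, h1])
    · exact hi (by rw [← h, h2])
  have hBex : nB γ ≠ 0 → ∃ i, i ≠ γ 0 ∧ RB (lab i).val := by
    intro h
    rw [nB, Finset.card_ne_zero] at h
    obtain ⟨i, hi⟩ := h
    simp only [Finset.mem_filter, Finset.mem_univ, true_and] at hi
    exact ⟨i, hi.1, hB i hi.1 hi.2.1 hi.2.2⟩
  have hBno : nB γ = 0 → ∀ i, i ≠ γ 0 → ¬ RB (lab i).val := by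
    intro h i hi hv
    have := hlabB i hi hv
    rw [nB, Finset.card_eq_zero, Finset.filter_eq_empty_iff] at h
    exact h (Finset.mem_univ i) ⟨hi, this.1, this.2⟩
  have sum_all : ∀ (P : Fin d → Prop) [DecidablePred P], (∀ r, P r) →
      (∑ r : Fin d, if P r then 1 else 0) = d := by
    intro P _ hP
    simp [hP]
  have sum_none : ∀ (P : Fin d → Prop) [DecidablePred P], (∀ r, ¬ P r) →
      (∑ r : Fin d, if P r then 1 else 0) = 0 := by
    intro P _ hP
    simp [hP]
  by_cases h0 : (lab (γ 0)).val = 0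
  · -- the label of the room of team 0 is team 0
    rw [Rval, if_pos h0]
    by_cases hnB : nB γ = 0
    · rw [if_pos (Or.inr hnB)]
      refine sum_all _ ?_
      intro r
      left
      refine node_noB lab r ⟨γ 0, h0⟩ ?_
      rintro ⟨i, hi⟩
      by_cases hi0 : i = γ 0
      · rw [hi0, h0] at hi
        exact not_RB_zero hi
      · exact hBno hnB i hi0 hi
    · obtain ⟨b, hb0, hb⟩ := hBex hnB
      by_cases hx : γ 1 = γ 0 ∧ γ 2 = γ 0
      · rw [if_pos (Or.inl hx)]
        refine sum_all _ ?_
        intro r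
        right
        refine node_B_noX lab r ⟨b, hb⟩ ?_
        rintro ⟨i, hi⟩
        by_cases hi0 : i = γ 0
        · rw [hi0, h0] at hi
          omega
        · exact hXno hx i hi0 hi
      · rw [if_neg (by tauto)]
        obtain ⟨x, hx0, hxl⟩ := hXex hx
        have hl : ∀ r, nodeLabel (revTour n RB not_RB_zero) lab r = lab r := fun r =>
          node_ABX lab r ⟨γ 0, h0⟩ ⟨b, hb⟩ ⟨x, hxl⟩
        simp only [hl]
        rw [← Finset.card_filter]
        have hset : (Finset.univ.filter (fun r : Fin d => (lab r).val = 0 ∨ RB (lab r).val)) =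
            insert (γ 0) (Finset.univ.filter (fun i : Fin d => i ≠ γ 0 ∧ (γ 3 = i ∨ γ 4 = i) ∧
              ¬ (γ 1 = i ∨ γ 2 = i))) := by
          ext r
          simp only [Finset.mem_filter, Finset.mem_univ, true_and, Finset.mem_insert]
          constructor
          · rintro (h | h)
            · left
              by_contra hr
              exact hlab r hr h
            · by_cases hr : r = γ 0
              · exact Or.inl hr
              · right
                have := hlabB r hr h
                exact ⟨hr, this.1, this.2⟩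
          · rintro (h | h)
            · left
              rw [h, h0]
            · right
              exact hB r h.1 h.2.1 h.2.2
        rw [hset, Finset.card_insert_of_notMem, nB, add_comm]
        simp
  · rw [Rval, if_neg h0]
    have hA : ¬ ∃ i, (lab i).val = 0 := by
      rintro ⟨i, hi⟩
      by_cases hi0 : i = γ 0
      · rw [hi0] at hi
        exact h0 hi
      · exact hlab i hi0 hi
    by_cases hx : γ 1 = γ 0 ∧ γ 2 = γ 0
    · by_cases h34 : (lab (γ 0)).val = 3 ∨ (lab (γ 0)).val = 4
      · rw [if_pos h34, if_pos hx]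
        refine sum_all _ ?_
        intro r
        right
        refine node_B_noX lab r ⟨γ 0, h34⟩ ?_
        rintro ⟨i, hi⟩
        by_cases hi0 : i = γ 0
        · rw [hi0] at hi
          omega
        · exact hXno hx i hi0 hi
      · rw [if_neg h34]
        by_cases h12 : (lab (γ 0)).val = 1 ∨ (lab (γ 0)).val = 2
        · rw [if_pos h12]
          refine sum_none _ ?_
          intro r
          have := node_noA_X lab r hA ⟨γ 0, h12⟩
          rw [hRB]
          omega
        · rw [if_neg h12]
          by_cases hnB : nB γ = 0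
          · rw [if_neg (by tauto)]
            refine sum_none _ ?_
            intro r
            obtain ⟨i, hi⟩ := nodeLabel_mem (revTour n RB not_RB_zero) lab r
            rw [hi]
            by_cases hi0 : i = γ 0
            · rw [hi0, hRB]
              tauto
            · intro h
              rcases h with h | h
              · exact hlab i hi0 h
              · exact hBno hnB i hi0 h
          · obtain ⟨b, hb0, hb⟩ := hBex hnB
            rw [if_pos ⟨hx, hnB⟩]
            refine sum_all _ ?_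
            intro r
            right
            refine node_B_noX lab r ⟨b, hb⟩ ?_
            rintro ⟨i, hi⟩
            by_cases hi0 : i = γ 0
            · rw [hi0] at hi
              exact h12 hi
            · exact hXno hx i hi0 hi
    · obtain ⟨x, hx0, hxl⟩ := hXex hx
      have hz : (∑ r : Fin d, if ((nodeLabel (revTour n RB not_RB_zero) lab r).val = 0 ∨
          RB (nodeLabel (revTour n RB not_RB_zero) lab r).val) then 1 else 0) = 0 := by
        refine sum_none _ ?_
        intro r
        have := node_noA_X lab r hA ⟨x, hxl⟩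
        rw [hRB]
        omega
      rw [hz]
      split_ifs <;> first | rfl | tauto

end Pool.Agent.R342.Seb
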