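import Mathlib
import Pool.Agent.R342.Seb.Two

namespace Pool.Agent.R342.Seb

theorem group_sum {n d : ℕ} (γ : Fin 5 → Fin d) (f : Fin d → Fin n)
    (hf : Function.Injective f) (hmem : ∀ t : Fin 5, (∃ j, (f j).val = t.val) ↔ γ t = γ 0) :
    ∑ μ : Fin d, Rval γ (nodeLabel (revTour n RB not_RB_zero) f μ).val = Vval γ := by
  classical
  have h0 : ∃ j, (f j).val = 0 := (hmem 0).2 rfl
  rw [Vval]
  by_cases hb : γ 3 ≠ γ 0 ∧ γ 4 ≠ γ 0
  · rw [if_pos hb]
    have : ∀ μ, Rval γ (nodeLabel (revTour n RB not_RB_zero) f μ).val = Rval γ 0 := by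
      intro μ
      rw [node_noB f μ h0]
      rintro ⟨j, hj | hj⟩
      · exact hb.1 ((hmem 3).1 ⟨j, hj⟩)
      · exact hb.2 ((hmem 4).1 ⟨j, hj⟩)
    rw [Finset.sum_congr rfl (fun μ _ => this μ), Finset.sum_const, Finset.card_univ,
      Fintype.card_fin, smul_eq_mul]
  · rw [if_neg hb]
    have hB : ∃ j, RB (f j).val := by
      by_cases h3 : γ 3 = γ 0
      · obtain ⟨j, hj⟩ := (hmem 3).2 h3
        exact ⟨j, Or.inl hj⟩
      · have h4 : γ 4 = γ 0 := by
          by_contra h4
          exact hb ⟨h3, h4⟩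
        obtain ⟨j, hj⟩ := (hmem 4).2 h4
        exact ⟨j, Or.inr hj⟩
    by_cases hx : γ 1 ≠ γ 0 ∧ γ 2 ≠ γ 0
    · rw [if_pos hx]
      have : ∀ μ, Rval γ (nodeLabel (revTour n RB not_RB_zero) f μ).val = Rval γ 3 := by
        intro μ
        have h1 := node_B_noX f μ hB (by
          rintro ⟨j, hj | hj⟩
          · exact hx.1 ((hmem 1).1 ⟨j, hj⟩)
          · exact hx.2 ((hmem 2).1 ⟨j, hj⟩))
        rcases h1 with h1 | h1
        · rw [h1]
        · rw [h1, Rval, Rval]
          simp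
      rw [Finset.sum_congr rfl (fun μ _ => this μ), Finset.sum_const, Finset.card_univ,
        Fintype.card_fin, smul_eq_mul]
    · rw [if_neg hx]
      have hX : ∃ j, ((f j).val = 1 ∨ (f j).val = 2) := by
        by_cases h3 : γ 1 = γ 0
        · obtain ⟨j, hj⟩ := (hmem 1).2 h3
          exact ⟨j, Or.inl hj⟩
        · have h4 : γ 2 = γ 0 := by
            by_contra h4
            exact hx ⟨h3, h4⟩
          obtain ⟨j, hj⟩ := (hmem 2).2 h4
          exact ⟨j, Or.inr hj⟩
      have hl : ∀ μ, nodeLabel (revTour n RB not_RB_zero) f μ = f μ := fun μ =>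
        node_ABX f μ h0 hB hX
      simp only [hl]
      rw [← Finset.sum_filter_add_sum_filter_not Finset.univ (fun μ : Fin d => (f μ).val < 5)]
      have hbij : ∀ G : Fin 5 → ℕ,
          ∑ μ ∈ (Finset.univ.filter (fun μ : Fin d => (f μ).val < 5)).attach,
            G ⟨(f μ.1).val, (Finset.mem_filter.1 μ.2).2⟩ =
          ∑ t ∈ Finset.univ.filter (fun t : Fin 5 => γ t = γ 0), G t := by
        intro G
        refine Finset.sum_bij (fun μ _ => ⟨(f μ.1).val, (Finset.mem_filter.1 μ.2).2⟩) ?_ ?_ ?_ ?_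
        · intro μ _
          simp only [Finset.mem_filter, Finset.mem_univ, true_and]
          exact (hmem _).1 ⟨μ.1, rfl⟩
        · intro μ _ μ' _ h
          have h1 := congrArg Fin.val h
          simp only at h1
          exact Subtype.ext (hf (Fin.ext h1))
        · intro t ht
          simp only [Finset.mem_filter, Finset.mem_univ, true_and] at ht
          obtain ⟨j, hj⟩ := (hmem t).2 ht
          refine ⟨⟨j, ?_⟩, Finset.mem_attach _ _, ?_⟩
          · simp only [Finset.mem_filter, Finset.mem_univ, true_and]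
            rw [hj]
            exact t.isLt
          · exact Fin.ext hj
        · intro μ _
          rfl
      have h1 : ∑ μ ∈ Finset.univ.filter (fun μ : Fin d => (f μ).val < 5),
          Rval γ (f μ).val = ∑ t : Fin 5, if γ t = γ 0 then Rval γ t.val else 0 := by
        rw [← Finset.sum_filter, ← hbij (fun t => Rval γ t.val)]
        rw [← Finset.sum_attach]
      have hcard : (Finset.univ.filter (fun μ : Fin d => (f μ).val < 5)).card =
          (Finset.univ.filter (fun t : Fin 5 => γ t = γ 0)).card := by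
        have := hbij (fun _ => 1)
        simpa using this
      have h2 : ∑ μ ∈ Finset.univ.filter (fun μ : Fin d => ¬ (f μ).val < 5),
          Rval γ (f μ).val =
          (d - (Finset.univ.filter (fun t : Fin 5 => γ t = γ 0)).card) * Rval γ 5 := by
        have h3 : ∀ μ ∈ Finset.univ.filter (fun μ : Fin d => ¬ (f μ).val < 5),
            Rval γ (f μ).val = Rval γ 5 := by
          intro μ hμ
          simp only [Finset.mem_filter, Finset.mem_univ, true_and, not_lt] at hμ
          rw [Rval, Rval, if_neg (by omega), if_neg (by omega), if_neg (by omega),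
            if_neg (show ¬ ((5 : ℕ) = 0) by norm_num),
            if_neg (show ¬ ((5 : ℕ) = 3 ∨ (5 : ℕ) = 4) by norm_num),
            if_neg (show ¬ ((5 : ℕ) = 1 ∨ (5 : ℕ) = 2) by norm_num)]
        rw [Finset.sum_congr rfl h3, Finset.sum_const, smul_eq_mul]
        congr 1
        have h4 := Finset.card_filter_add_card_filter_not (s := (Finset.univ : Finset (Fin d)))
          (fun μ : Fin d => (f μ).val < 5)
        rw [Finset.card_univ, Fintype.card_fin] at h4
        omega
      rw [h1, h2]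

theorem sum_fun_apply {ι X : Type} [Fintype ι] [DecidableEq ι] [Fintype X] (i : ι)
    (G : X → ℕ) :
    Fintype.card X * ∑ g : ι → X, G (g i) = Fintype.card (ι → X) * ∑ x : X, G x := by
  have h1 := (Equiv.funSplitAt i X).sum_comp (fun p => G p.1)
  have h2 : ∑ g : ι → X, G (g i) = ∑ p : X × ({j // j ≠ i} → X), G p.1 := by
    rw [← h1]
    rfl
  have h3 : Fintype.card (ι → X) = Fintype.card X * Fintype.card ({j // j ≠ i} → X) := by
    rw [Fintype.card_congr (Equiv.funSplitAt i X), Fintype.card_prod]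
  rw [h2, h3, Fintype.sum_prod_type]
  simp only [Finset.sum_const, Finset.card_univ, smul_eq_mul, ← Finset.mul_sum]
  ring

theorem rootLabel_two {N : Type} (T : Tour N) (d : ℕ) (σ : Leaf d 2 → N) (m : Marks d 2) :
    rootLabel T d 2 σ m =
      nodeLabel T (fun i => nodeLabel T (fun j => σ (i, (j, ()))) (m.2 i).1) m.1 := rfl

theorem sum_marks_two (d : ℕ) (G : Marks d 2 → ℕ) :
    ∑ m : Marks d 2, G m = ∑ M : Fin d → Marks d 1, ∑ r : Fin d, G (r, M) := by
  have h1 : ∑ m : Marks d 2, G m = ∑ m : Fin d × (Fin d → Marks d 1), G m := rfl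
  rw [h1, Fintype.sum_prod_type_right]

theorem two_rounds_count (d : ℕ) (hd : 5 ≤ d ^ 2) (σ : Leaf d 2 ≃ Fin (d ^ 2))
    (γ : Fin 5 → Fin d)
    (hγ : ∀ t : Fin 5, γ t = (σ.symm ⟨t.val, lt_of_lt_of_le t.isLt hd⟩).1) :
    d * ∑ m : Marks d 2,
      (if ((rootLabel (revTour (d ^ 2) RB not_RB_zero) d 2 σ m).val = 0 ∨
        RB (rootLabel (revTour (d ^ 2) RB not_RB_zero) d 2 σ m).val) then 1 else 0) =
      Fintype.card (Fin d → Marks d 1) * Vval γ := by
  classical
  set f : Fin d → Fin d → Fin (d ^ 2) := fun i j => σ (i, (j, ())) with hfdef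
  have hfinj : ∀ i j i' j', f i j = f i' j' → i = i' ∧ j = j' := by
    intro i j i' j' h
    have h1 := σ.injective h
    have h2 : (i, (j, ())) = ((i', (j', ())) : Fin d × (Fin d × Unit)) := h1
    simp only [Prod.mk.injEq, and_true] at h2
    exact h2
  have hmem : ∀ (i : Fin d) (t : Fin 5), (∃ j, (f i j).val = t.val) ↔ γ t = i := by
    intro i t
    have hs : σ (σ.symm ⟨t.val, lt_of_lt_of_le t.isLt hd⟩) = ⟨t.val, lt_of_lt_of_le t.isLt hd⟩ :=
      σ.apply_symm_apply _
    constructor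
    · rintro ⟨j, hj⟩
      have h1 : σ (i, (j, ())) = ⟨t.val, lt_of_lt_of_le t.isLt hd⟩ := Fin.ext hj
      rw [hγ, ← h1]
      have h2 : σ.symm (σ (i, (j, ()))) = (i, (j, ())) := σ.symm_apply_apply _
      exact congrArg Prod.fst h2
    · intro h
      refine ⟨(σ.symm ⟨t.val, lt_of_lt_of_le t.isLt hd⟩).2.1, ?_⟩
      have h1 : f (γ t) (σ.symm ⟨t.val, lt_of_lt_of_le t.isLt hd⟩).2.1 =
          ⟨t.val, lt_of_lt_of_le t.isLt hd⟩ := by
        rw [hγ]
        exact hs
      rw [← h, h1]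
  rw [sum_marks_two]
  have hroot : ∀ M : Fin d → Marks d 1,
      (∑ r : Fin d, if ((rootLabel (revTour (d ^ 2) RB not_RB_zero) d 2 σ (r, M)).val = 0 ∨
        RB (rootLabel (revTour (d ^ 2) RB not_RB_zero) d 2 σ (r, M)).val) then 1 else 0) =
      Rval γ (nodeLabel (revTour (d ^ 2) RB not_RB_zero) (f (γ 0)) (M (γ 0)).1).val := by
    intro M
    have hlabmem : ∀ i, ∃ j, nodeLabel (revTour (d ^ 2) RB not_RB_zero) (f i) (M i).1 = f i j :=
      fun i => nodeLabel_mem _ _ _
    have hno : ∀ i, i ≠ γ 0 → ¬ ∃ j, (f i j).val = 0 := fun i hi h =>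
      hi ((hmem i 0).1 h).symm
    refine root_count γ (fun i => nodeLabel (revTour (d ^ 2) RB not_RB_zero) (f i) (M i).1)
      ?_ ?_ ?_
    · intro i hi hX
      refine node_noA_X (f i) _ (hno i hi) ?_
      rcases hX with h | h
      · obtain ⟨j, hj⟩ := (hmem i 1).2 h
        exact ⟨j, Or.inl hj⟩
      · obtain ⟨j, hj⟩ := (hmem i 2).2 h
        exact ⟨j, Or.inr hj⟩
    · intro i hi hB hX
      refine node_B_noX (f i) _ ?_ ?_
      · rcases hB with h | h
        · obtain ⟨j, hj⟩ := (hmem i 3).2 h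
          exact ⟨j, Or.inl hj⟩
        · obtain ⟨j, hj⟩ := (hmem i 4).2 h
          exact ⟨j, Or.inr hj⟩
      · rintro ⟨j, hj | hj⟩
        · exact hX (Or.inl ((hmem i 1).1 ⟨j, hj⟩))
        · exact hX (Or.inr ((hmem i 2).1 ⟨j, hj⟩))
    · intro i hi hB hX
      obtain ⟨j, hj⟩ := hlabmem i
      simp only
      rw [hj]
      by_contra hlt
      have h5 : (f i j).val < 5 := by omega
      have h6 := (hmem i ⟨(f i j).val, h5⟩).1 ⟨j, rfl⟩
      have h7 : (f i j).val = 0 ∨ (f i j).val = 1 ∨ (f i j).val = 2 ∨ (f i j).val = 3 ∨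
          (f i j).val = 4 := by omega
      rcases h7 with h7 | h7 | h7 | h7 | h7
      · exact hno i hi ⟨j, h7⟩
      · exact hX (Or.inl ((hmem i 1).1 ⟨j, h7⟩))
      · exact hX (Or.inr ((hmem i 2).1 ⟨j, h7⟩))
      · exact hB (Or.inl ((hmem i 3).1 ⟨j, h7⟩))
      · exact hB (Or.inr ((hmem i 4).1 ⟨j, h7⟩))
  rw [Finset.sum_congr rfl (fun M _ => hroot M)]
  have h1 := sum_fun_apply (γ 0) (fun x : Marks d 1 =>
    Rval γ (nodeLabel (revTour (d ^ 2) RB not_RB_zero) (f (γ 0)) x.1).val)
  rw [card_marks_one] at h1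
  rw [h1]
  congr 1
  have h2 := sum_marks_one d (fun μ =>
    Rval γ (nodeLabel (revTour (d ^ 2) RB not_RB_zero) (f (γ 0)) μ).val)
  refine h2.trans ?_
  refine group_sum γ (f (γ 0)) ?_ (fun t => hmem (γ 0) t)
  intro j j' h
  exact (hfinj _ _ _ _ h).2

end Pool.Agent.R342.Seb
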