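import Mathlib
import Pool.Agent.R342.Seb.Three

namespace Pool.Agent.R342.Seb

theorem numeric_three :
    420 * ∑ γ : Fin 5 → Fin 3, slotCount 3 5 γ * Vval γ ≤
      193 * ((3 ^ 2).descFactorial 5 * 3 ^ 2) := by
  decide +kernel

theorem numeric_four :
    420 * ∑ γ : Fin 5 → Fin 4, slotCount 4 5 γ * Vval γ ≤
      193 * ((4 ^ 2).descFactorial 5 * 4 ^ 2) := by
  decide +kernel

theorem numeric_five :
    420 * ∑ γ : Fin 5 → Fin 5, slotCount 5 5 γ * Vval γ ≤
      193 * ((5 ^ 2).descFactorial 5 * 5 ^ 2) := by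
  decide +kernel

theorem numeric_six :
    420 * ∑ γ : Fin 5 → Fin 6, slotCount 6 5 γ * Vval γ ≤
      193 * ((6 ^ 2).descFactorial 5 * 6 ^ 2) := by
  decide +kernel

end Pool.Agent.R342.Seb
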