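import Mathlib
import Pool.Agent.R342.Seb.Numeric

namespace Pool.Agent.R342.Seb

theorem card_leaf (d : ℕ) : ∀ h : ℕ, Fintype.card (Leaf d h) = d ^ h
  | 0 => rfl
  | h + 1 => by
    have h1 : Fintype.card (Leaf d (h + 1)) = Fintype.card (Fin d × Leaf d h) := rfl
    rw [h1, Fintype.card_prod, Fintype.card_fin, card_leaf d h, pow_succ, mul_comm]

theorem two_rounds_total (d : ℕ) (hd : 5 ≤ d ^ 2) :
    (d ^ 2).descFactorial 5 * (d * ∑ σ : Leaf d 2 ≃ Fin (d ^ 2), ∑ m : Marks d 2,
      (if ((rootLabel (revTour (d ^ 2) RB not_RB_zero) d 2 σ m).val = 0 ∨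
        RB (rootLabel (revTour (d ^ 2) RB not_RB_zero) d 2 σ m).val) then 1 else 0)) =
      Fintype.card (Leaf d 2 ≃ Fin (d ^ 2)) * (Fintype.card (Fin d → Marks d 1) *
        ∑ γ : Fin 5 → Fin d, slotCount d 5 γ * Vval γ) := by
  classical
  let sp : Fin 5 ↪ Fin (d ^ 2) :=
    ⟨fun t => ⟨t.val, lt_of_lt_of_le t.isLt hd⟩, fun a b h => by
      have h1 := congrArg Fin.val h
      exact Fin.ext h1⟩
  have h1 := sum_equiv_eq (L := Leaf d 2) (N := Fin (d ^ 2)) sp
    (fun p => Vval (fun t => (p t).1))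
  rw [Fintype.card_embedding_eq, card_leaf, Fintype.card_fin] at h1
  have h2 : ∑ p : Fin 5 ↪ Leaf d 2, Vval (fun t => (p t).1) =
      ∑ γ : Fin 5 → Fin d, slotCount d 5 γ * Vval γ := sum_embedding_eq d 5 Vval
  rw [h2] at h1
  have h3 : d * ∑ σ : Leaf d 2 ≃ Fin (d ^ 2), ∑ m : Marks d 2,
      (if ((rootLabel (revTour (d ^ 2) RB not_RB_zero) d 2 σ m).val = 0 ∨
        RB (rootLabel (revTour (d ^ 2) RB not_RB_zero) d 2 σ m).val) then 1 else 0) =
      Fintype.card (Fin d → Marks d 1) *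
        ∑ σ : Leaf d 2 ≃ Fin (d ^ 2), Vval (fun t => ((sp.trans σ.symm.toEmbedding) t).1) := by
    rw [Finset.mul_sum, Finset.mul_sum]
    refine Finset.sum_congr rfl ?_
    intro σ _
    exact two_rounds_count d hd σ _ (fun t => rfl)
  rw [h3]
  have h4 : (d ^ 2).descFactorial 5 * (Fintype.card (Fin d → Marks d 1) *
        ∑ σ : Leaf d 2 ≃ Fin (d ^ 2), Vval (fun t => ((sp.trans σ.symm.toEmbedding) t).1)) =
      Fintype.card (Fin d → Marks d 1) * ((d ^ 2).descFactorial 5 *
        ∑ σ : Leaf d 2 ≃ Fin (d ^ 2), Vval (fun t => ((sp.trans σ.symm.toEmbedding) t).1)) := by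
    ring
  rw [h4, h1]
  ring

theorem two_rounds (d : ℕ) (hd : 3 ≤ d)
    (hnum : 420 * ∑ γ : Fin 5 → Fin d, slotCount d 5 γ * Vval γ ≤
      193 * ((d ^ 2).descFactorial 5 * d ^ 2)) :
    (227 : ℝ) / 420 ≤ manip d 3 := by
  classical
  have hd9 : 9 ≤ d ^ 2 := by nlinarith
  have hd5 : 5 ≤ d ^ 2 := by omega
  let sp : Fin 5 → Fin (d ^ 2) := fun t => ⟨t.val, lt_of_lt_of_le t.isLt hd5⟩
  let S : Finset (Fin (d ^ 2)) := {sp 0, sp 3, sp 4}
  have hScard : S.card ≤ 3 := Finset.card_le_three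
  have hSmem : ∀ x : Fin (d ^ 2), x ∈ S ↔ (x.val = 0 ∨ RB x.val) := by
    intro x
    simp only [S, Finset.mem_insert, Finset.mem_singleton, sp, RB, Fin.ext_iff]
    rfl
  let T : Tour (Fin (d ^ 2)) := revTour (d ^ 2) RB not_RB_zero
  let T' : Tour (Fin (d ^ 2)) := revTour (d ^ 2) (fun _ => False) (by simp)
  have hadj : SAdjacent S T T' := by
    refine sadj_rev _ _ _ _ _ _ ?_ ?_ ?_
    · intro x hx
      rw [hSmem]
      exact Or.inl hx
    · intro x hx
      rw [hSmem]
      exact Or.inr hx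
    · intro x hx
      exact hx.elim
  have hT' : ∑ x ∈ S, winProb d 2 T' x = 1 := by
    refine sum_winProb_condorcet d 2 (by omega) T' S (sp 0) ?_ ?_
    · rw [hSmem]
      left
      rfl
    · intro x hx
      left
      refine ⟨?_, by simp⟩
      have : x.val ≠ 0 := by
        intro h
        apply hx
        ext
        rw [h]
        rfl
      show 0 < x.val
      omega
  have hT : ∑ x ∈ S, winProb d 2 T x ≤ 193 / 420 := by
    rw [sum_winProb]
    have htot := two_rounds_total d hd5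
    have hcount : (Finset.univ.filter (fun q : (Leaf d 2 ≃ Fin (d ^ 2)) × Marks d 2 =>
        rootLabel T d 2 q.1 q.2 ∈ S)).card =
        ∑ σ : Leaf d 2 ≃ Fin (d ^ 2), ∑ m : Marks d 2,
      (if ((rootLabel (revTour (d ^ 2) RB not_RB_zero) d 2 σ m).val = 0 ∨
        RB (rootLabel (revTour (d ^ 2) RB not_RB_zero) d 2 σ m).val) then 1 else 0) := by
      rw [Finset.card_filter, Fintype.sum_prod_type]
      refine Finset.sum_congr rfl ?_
      intro σ _
      refine Finset.sum_congr rfl ?_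
      intro m _
      simp only [hSmem]
      rfl
    rw [← hcount] at htot
    have hM : Fintype.card (Marks d 2) = d * Fintype.card (Fin d → Marks d 1) := by
      have h1 : Fintype.card (Marks d 2) = Fintype.card (Fin d × (Fin d → Marks d 1)) := rfl
      rw [h1, Fintype.card_prod, Fintype.card_fin]
    have hpos := card_pos_of d 2 (by omega)
    rw [div_le_div_iff₀ (by exact_mod_cast hpos) (by norm_num)]
    rw [Fintype.card_prod, hM] at hpos ⊢
    set E := Fintype.card (Leaf d 2 ≃ Fin (d ^ 2))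
    set K := Fintype.card (Fin d → Marks d 1)
    set cnt := (Finset.univ.filter (fun q : (Leaf d 2 ≃ Fin (d ^ 2)) × Marks d 2 =>
        rootLabel T d 2 q.1 q.2 ∈ S)).card
    set Z := ∑ γ : Fin 5 → Fin d, slotCount d 5 γ * Vval γ
    have hC : 0 < (d ^ 2).descFactorial 5 := by
      rw [Nat.pos_iff_ne_zero, Ne, Nat.descFactorial_eq_zero_iff_lt]
      omega
    have key : cnt * 420 ≤ 193 * (E * (d * K)) := by
      have hCd : 0 < (d ^ 2).descFactorial 5 * d := Nat.mul_pos hC (by omega)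
      refine Nat.le_of_mul_le_mul_left ?_ hCd
      calc (d ^ 2).descFactorial 5 * d * (cnt * 420)
          = 420 * ((d ^ 2).descFactorial 5 * (d * cnt)) := by ring
        _ = E * K * (420 * Z) := by
          rw [htot]
          ring
        _ ≤ E * K * (193 * ((d ^ 2).descFactorial 5 * d ^ 2)) := Nat.mul_le_mul_left _ hnum
        _ = (d ^ 2).descFactorial 5 * d * (193 * (E * (d * K))) := by ring
    exact_mod_cast key
  have := le_manip d 3 2 (by norm_num) T T' S hScard hadj
  rw [hT'] at this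
  linarith

theorem manip_three (d : ℕ) (hd : 3 ≤ d) : (227 : ℝ) / 420 ≤ manip d 3 := by
  by_cases h7 : 7 ≤ d
  · have h1 := one_round d hd
    have h2 : (3 : ℝ) / d ≤ 3 / 7 := by
      have : (7 : ℝ) ≤ d := by exact_mod_cast h7
      exact div_le_div_of_nonneg_left (by norm_num) (by norm_num) this
    have h3 : (227 : ℝ) / 420 ≤ 1 - 3 / 7 := by norm_num
    linarith
  · have h8 : d = 3 ∨ d = 4 ∨ d = 5 ∨ d = 6 := by omega
    rcases h8 with rfl | rfl | rfl | rfl
    · exact two_rounds 3 (by norm_num) numeric_three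
    · exact two_rounds 4 (by norm_num) numeric_four
    · exact two_rounds 5 (by norm_num) numeric_five
    · exact two_rounds 6 (by norm_num) numeric_six

theorem manip_mono (d k k' : ℕ) (hk : k ≤ k') : manip d k ≤ manip d k' := by
  refine (isLeast_manip d k).2 ?_
  intro h hh T T' S hS hST
  exact (isLeast_manip d k').1 h hh T T' S (hS.trans hk) hST

end Pool.Agent.R342.Seb
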